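import Mathlib
import Pool.Agent.H97.Dch

namespace Pool.Agent.Results.MP_890ea4_an.Counter

open Set Filter Topology Pool.Agent.H97.Dch

/-- The lower `m`-density of `A`, in `[0, ∞]`. -/
noncomputable def lowerDens (m : ℕ → ℝ) (A : Set ℕ) : ENNReal :=
  liminf (fun n : ℕ => ((A ∩ {j | 1 ≤ j ∧ (j : ℝ) ≤ m n}).encard : ENNReal) / n) atTop

/-- `m`-distributional chaos of a map `T`. -/
def Chaotic {E : Type} [MetricSpace E] (T : E → E) (m : ℕ → ℝ) : Prop :=
  ∃ S : Set E, ¬ S.Countable ∧ ∃ σ > (0:ℝ), ∀ ε > (0:ℝ), ∀ x ∈ S, ∀ y ∈ S, x ≠ y →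
    lowerDens m {j | dist (T^[j] x) (T^[j] y) < σ} = 0 ∧
    lowerDens m {j | ε ≤ dist (T^[j] x) (T^[j] y)} = 0

theorem aux {A : Set ℕ} {a n : ℕ} (hn : 0 < n) (h : A ⊆ Iio a) :
    (A.encard : ENNReal) / n ≤ ENNReal.ofReal (a / n) := by
  rw [ENNReal.ofReal_div_of_pos (by exact_mod_cast hn), ENNReal.ofReal_natCast,
    ENNReal.ofReal_natCast]
  gcongr
  have : A.encard ≤ a := (encard_le_encard h).trans (by
    rw [← Finset.coe_range, encard_coe_eq_coe_finsetCard, Finset.card_range])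
  exact_mod_cast ENat.toENNReal_mono this

theorem result (𝕜 : Type) [RCLike 𝕜] :
    ∃ (E : Type) (_ : NormedAddCommGroup E) (_ : NormedSpace 𝕜 E) (_ : CompleteSpace E)
      (T : E →L[𝕜] E) (m : ℕ → ℝ), StrictMono m ∧ (∀ n, 1 ≤ m n) ∧ (∀ n : ℕ, (n : ℝ) ≤ m n) ∧
      (∃ X₀ : Submodule 𝕜 E, Dense (X₀ : Set E) ∧
        ∀ x ∈ X₀, Tendsto (fun n : ℕ => T^[n] x) atTop (𝓝 0)) ∧
      Chaotic T (fun n => n) ∧ ¬ Chaotic T m := by
  have hm : ∀ n : ℕ, (n : ℝ) ≤ B (n + 1) := fun n => by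
    have := le_B (n + 1); push_cast at this; linarith
  refine ⟨X 𝕜, inferInstance, inferInstance, inferInstance, T 𝕜 1, fun n => 2 * B (n + 1),
    fun a b h => ?_, fun n => by linarith [B_one (n + 1)], fun n => by linarith [B_one (n + 1), hm n],
    ?_, ?_, ?_⟩
  · have : (B (a + 1) : ℝ) < B (b + 1) := by exact_mod_cast B_strictMono (by omega)
    simpa using this
  · obtain ⟨X₀, h1, h2⟩ := dense_null (𝕜 := 𝕜)
    exact ⟨X₀, h1, fun x hx => by
      simp only [T_iter]; exact (h2 x hx).comp tendsto_natCast_atTop_atTop⟩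
  · obtain ⟨x, h1, h2⟩ := irregular (𝕜 := 𝕜)
    have hx : x ≠ 0 := by
      rintro rfl
      obtain ⟨k, hk⟩ := (h2 1).exists
      have := hk (8 ^ k * B k) (by gcongr; norm_num) le_rfl
      norm_num at this
    refine ⟨_, unc hx, 1, one_pos, ?_⟩
    rintro ε hε _ ⟨a, rfl⟩ _ ⟨b, rfl⟩ hab
    have hc : 0 < ‖a - b‖ := norm_pos_iff.2 (sub_ne_zero.2 fun h => hab (by rw [h]))
    simp only [T_iter, dist_eq]
    constructor
    · refine lim0 _ (fun k => 8 ^ k * B k) (tendsto_atTop_mono (fun k => ?_) tendsto_id)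
        (fun k => (1 / 2) ^ k) (tendsto_pow_atTop_nhds_zero_of_lt_one (by norm_num) (by norm_num)) ?_
      · exact B_strictMono.le_apply.trans (Nat.le_mul_of_pos_left _ (by positivity))
      filter_upwards [h2 (1 / ‖a - b‖)] with k hk
      have hB := B_pos k
      refine (aux (a := 4 ^ k * B k) (by positivity) ?_).trans (le_of_eq ?_)
      · rintro j ⟨a1, -, a2⟩
        by_contra h
        have := hk j (by exact_mod_cast not_lt.1 h) (by exact_mod_cast a2)
        rw [div_le_iff₀' hc] at this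
        exact absurd a1 (not_lt.2 this)
      · congr 1
        push_cast
        rw [mul_div_mul_right _ _ (by positivity), ← div_pow]; norm_num
    · refine lim0 _ (fun k => (k + 1) * B (k + 1)) (tendsto_atTop_mono (fun k => ?_) tendsto_id)
        _ tendsto_one_div_add_atTop_nhds_zero_nat ?_
      · exact (Nat.le_succ k).trans (Nat.le_mul_of_pos_right _ (B_pos _))
      filter_upwards [h1 (ε / ‖a - b‖) (by positivity)] with k hk
      have hB := B_pos (k + 1)
      refine (aux (a := B (k + 1)) (by positivity) ?_).trans (le_of_eq ?_)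
      · rintro j ⟨a1, -, a2⟩
        by_contra h
        have := hk j (by exact_mod_cast not_lt.1 h) (by exact_mod_cast a2)
        rw [lt_div_iff₀' hc] at this
        exact absurd a1 (not_le.2 this)
      · congr 1
        push_cast
        field_simp
  · rintro ⟨S, hS, σ, hσ, h⟩
    obtain ⟨x, hx, y, hy, hxy⟩ : S.Nontrivial :=
      not_subsingleton_iff.1 fun h => hS h.countable
    have h1 := (h 1 one_pos x hx y hy hxy).1
    refine absurd h1 (lt_of_lt_of_le one_pos (le_liminf_of_le (by isBoundedDefault) ?_)).ne'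
    filter_upwards [win_all hσ (x - y), eventually_gt_atTop 0] with n hn h0
    rw [ENNReal.le_div_iff_mul_le (Or.inl (by exact_mod_cast h0.ne')) (Or.inl (by simp)), one_mul]
    have : ((Finset.Ico (B (n + 1)) (2 * B (n + 1)) : Finset ℕ) : Set ℕ) ⊆
        {j | dist ((T 𝕜 1)^[j] x) ((T 𝕜 1)^[j] y) < σ} ∩
          {j | 1 ≤ j ∧ (j : ℝ) ≤ 2 * B (n + 1)} := by
      intro j hj
      simp only [Finset.coe_Ico, mem_Ico] at hj
      have a2 : (j : ℝ) ≤ 2 * B (n + 1) := by exact_mod_cast hj.2.le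
      refine ⟨?_, (B_pos _).trans_le hj.1, a2⟩
      simp only [mem_ofPred_eq, T_iter, dist_eq_norm, ← map_sub]
      exact hn j (by exact_mod_cast hj.1) a2
    have := encard_le_encard this
    rw [encard_coe_eq_coe_finsetCard, Nat.card_Ico] at this
    have a3 : n ≤ 2 * B (n + 1) - B (n + 1) := by
      have : n + 1 ≤ B (n + 1) := B_strictMono.le_apply
      omega
    exact_mod_cast ENat.toENNReal_mono ((Nat.cast_le.2 a3).trans this)

end Pool.Agent.Results.MP_890ea4_an.Counter
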